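import Pool.Agent.Lib.CRW.F5

/-!
# MP_27bbc3_pr, Q1: fluctuations of the interface between two competing random walk paintings

The question is whether `Var |B| = Θ (Var |A_1|)` for every `d ≥ 3`.  The answer is YES: this file proves it, for every
dimension `d ≥ 3`, together with the order of both variances.

`Model d n P` (in `Pool.Agent.Lib.CRW.Model`) consists of two independent lazy random walks `X 0`, `X 1` on the torus
`(ℤ/n)^d`, started from the uniform distribution, and independent fair coins, one for every site, on a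
probability space `(Ω, P)`.  `paint` is the painting process, `sizeA` the number of sites marked by the first walk,
`sizeB` the number of edges with one end marked by the first and the other end marked by the second walk.
-/

open MeasureTheory ProbabilityTheory CRW

namespace Pool.Agent.Results.MP_27bbc3_pr.InterfaceVariance

/-- For every `d ≥ 3` there are positive constants with, for all large `n` and every realisation of the model,
`c Var |A_1| ≤ Var |B| ≤ C Var |A_1|`, `Var |A_1| > 0`; moreover both variances have the exact order `n^4` for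
`d = 3`, `n^4 log n` for `d = 4` and `n^d` for `d ≥ 5`.  The model exists. -/
theorem result :
    (∀ d : ℕ, 3 ≤ d → ∃ c C : ℝ, 0 < c ∧ 0 < C ∧ ∃ n₀ : ℕ, ∀ (n : ℕ) [NeZero n], n₀ ≤ n →
      ∀ {Ω : Type*} [MeasurableSpace Ω] (P : Measure Ω) [IsProbabilityMeasure P]
        (M : Model d n P),
        (0 < variance M.sizeA P ∧ c * variance M.sizeA P ≤ variance M.sizeB P ∧
          variance M.sizeB P ≤ C * variance M.sizeA P) ∧
        (∀ h : ℝ, h = (if d = 3 then (n : ℝ) ^ 4 else if d = 4 then (n : ℝ) ^ 4 * Real.log n
            else (n : ℝ) ^ d) →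
          c * h ≤ variance M.sizeA P ∧ variance M.sizeA P ≤ C * h ∧
          c * h ≤ variance M.sizeB P ∧ variance M.sizeB P ≤ C * h)) ∧
    (∀ (d n : ℕ) [NeZero n], 1 ≤ d → ∃ (Ω : Type) (_ : MeasurableSpace Ω) (P : Measure Ω),
      IsProbabilityMeasure P ∧ Nonempty (Model d n P)) := by
  refine ⟨fun d hd => ?_, fun d n _ hd => exists_model d n hd⟩
  obtain ⟨c, C, hc, hC, n₀, h⟩ := main_orders d hd
  have hcC : 0 < min c (c / C) := lt_min hc (div_pos hc hC)
  have hCc : 0 < max C (C / c) := lt_max_of_lt_left hC
  refine ⟨min c (c / C), max C (C / c), hcC, hCc, n₀, ?_⟩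
  intro n _ hn Ω _ P _ M
  obtain ⟨hh0, h'⟩ := h n hn
  obtain ⟨hA1, hA2, hB1, hB2⟩ := h' P M
  have hA0 : 0 < variance M.sizeA P := lt_of_lt_of_le (mul_pos hc hh0) hA1
  refine ⟨⟨hA0, ?_, ?_⟩, ?_⟩
  · calc min c (c / C) * variance M.sizeA P ≤ c / C * variance M.sizeA P :=
          mul_le_mul_of_nonneg_right (min_le_right _ _) hA0.le
      _ ≤ c / C * (C * hh d n) := mul_le_mul_of_nonneg_left hA2 (div_pos hc hC).le
      _ = c * hh d n := by field_simp
      _ ≤ variance M.sizeB P := hB1
  · calc variance M.sizeB P ≤ C * hh d n := hB2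
      _ = C / c * (c * hh d n) := by field_simp
      _ ≤ C / c * variance M.sizeA P := mul_le_mul_of_nonneg_left hA1 (div_pos hC hc).le
      _ ≤ max C (C / c) * variance M.sizeA P :=
          mul_le_mul_of_nonneg_right (le_max_right _ _) hA0.le
  · intro x hx
    have hx' : x = hh d n := hx
    rw [hx']
    have h1 : min c (c / C) * hh d n ≤ c * hh d n :=
      mul_le_mul_of_nonneg_right (min_le_left _ _) hh0.le
    have h2 : C * hh d n ≤ max C (C / c) * hh d n :=
      mul_le_mul_of_nonneg_right (le_max_left _ _) hh0.le
    exact ⟨h1.trans hA1, hA2.trans h2, h1.trans hB1, hB2.trans h2⟩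

end Pool.Agent.Results.MP_27bbc3_pr.InterfaceVariance
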